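import Mathlib
import Pool.Agent.N251.GA.Leaves

/-!
# Project GA (helper251), part MEAN (helper163): the weighted arithmetic and geometric means

After helper757's files `Pool/Agent/N757/OC/Mean.lean` and `Mean2.lean`.
-/

set_option autoImplicit false

namespace Pool.Agent.N163.GA

open Pool.Agent.N251.GA

section

variable {R : Type} [CommRing R]

/-- `(w + c) ^ n = w ^ n + n w ^ (n - 1) c + c² T` -/
def TT (w c : R) : ℕ → R
  | 0 => 0
  | n + 1 => (w + c) * TT w c n + n * w ^ (n - 1)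

theorem TT_spec (w c : R) (n : ℕ) : (w + c) ^ n = w ^ n + n * w ^ (n - 1) * c + c ^ 2 * TT w c n := by
  induction n with
  | zero => simp [TT]
  | succ n ih =>
    rw [pow_succ, ih, TT]
    rcases n with _ | n
    · simp [TT]
    · simp only [Nat.add_sub_cancel]
      push_cast
      ring

theorem TT_mod (w c : R) (n : ℕ) : c ∣ 2 * w ^ 2 * TT w c n - n * (n - 1) * w ^ n := by
  induction n with
  | zero => simp [TT]
  | succ n ih =>
    obtain ⟨r, hr⟩ := ih
    have h1 : 2 * w ^ 2 * TT w c n = n * (n - 1) * w ^ n + c * r := by linear_combination hr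
    refine ⟨w * r + 2 * w ^ 2 * TT w c n, ?_⟩
    rw [TT]
    rcases n with _ | n
    · simp only [TT] at h1 ⊢
      simp only [mul_zero, Nat.cast_zero, zero_mul, zero_add] at h1 ⊢
      have : c * r = 0 := h1.symm
      push_cast
      linear_combination -w * this
    · simp only [Nat.add_sub_cancel]
      push_cast at h1 ⊢
      linear_combination w * h1

/-- the cofactor `G` -/
def GG (a b : ℕ) (w d : R) : R :=
  (a : R) ^ 2 * TT w (a * d) (a + b) - ((a : R) + b) ^ 2 * w ^ b * TT w ((a + b) * d) a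

theorem GG_spec (a b : ℕ) (ha : 1 ≤ a) (w d : R) :
    (w + a * d) ^ (a + b) - (w + (a + b) * d) ^ a * w ^ b = d ^ 2 * GG a b w d := by
  have h1 := TT_spec w (a * d) (a + b)
  have h2 := TT_spec w ((a + b) * d) a
  obtain ⟨i, rfl⟩ : ∃ i, a = i + 1 := ⟨a - 1, by omega⟩
  rw [h1, h2, GG]
  have e1 : i + 1 + b - 1 = i + b := by omega
  rw [e1, Nat.add_sub_cancel]
  push_cast
  ring

theorem GG_mod (a b : ℕ) (w d : R) :
    d ∣ 2 * w ^ 2 * GG a b w d - (a + b) * a * b * w ^ (a + b) := by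
  obtain ⟨r, hr⟩ := TT_mod w (a * d) (a + b)
  obtain ⟨t, ht⟩ := TT_mod w ((a + b) * d) a
  refine ⟨a ^ 3 * r - (a + b) ^ 3 * w ^ b * t, ?_⟩
  rw [GG]
  push_cast at hr ⊢
  linear_combination (a : R) ^ 2 * hr - ((a : R) + b) ^ 2 * w ^ b * ht

theorem map_TT {S : Type} [CommRing S] (f : R →+* S) (w c : R) (n : ℕ) :
    f (TT w c n) = TT (f w) (f c) n := by
  induction n with
  | zero => simp [TT]
  | succ n ih => simp only [TT, map_add, map_mul, map_pow, map_natCast, ih]

theorem map_GG {S : Type} [CommRing S] (f : R →+* S) (a b : ℕ) (w d : R) :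
    f (GG a b w d) = GG a b (f w) (f d) := by
  simp only [GG, map_add, map_mul, map_pow, map_natCast, map_sub, map_TT]

end

theorem TT_bound (w c : ℂ) (B : ℝ) (hw : ‖w‖ ≤ B) (hc : ‖w + c‖ ≤ B) (n : ℕ) :
    ‖TT w c n‖ * B ^ 2 ≤ n ^ 2 * B ^ n := by
  have hB : 0 ≤ B := (norm_nonneg _).trans hw
  induction n with
  | zero => simp [TT]
  | succ n ih =>
    rw [TT]
    have h1 : ‖(w + c) * TT w c n + n * w ^ (n - 1)‖ ≤ B * ‖TT w c n‖ + n * ‖w‖ ^ (n - 1) := by
      calc ‖(w + c) * TT w c n + n * w ^ (n - 1)‖ ≤ ‖(w + c) * TT w c n‖ + ‖(n : ℂ) * w ^ (n - 1)‖ :=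
            norm_add_le _ _
        _ = ‖w + c‖ * ‖TT w c n‖ + n * ‖w‖ ^ (n - 1) := by
            rw [norm_mul, norm_mul, norm_pow, Complex.norm_natCast]
        _ ≤ _ := by
            have := mul_le_mul_of_nonneg_right hc (norm_nonneg (TT w c n))
            linarith
    have h2 : (n : ℝ) * ‖w‖ ^ (n - 1) * B ^ 2 ≤ n * B ^ (n + 1) := by
      rcases n with _ | n
      · simp
      · simp only [Nat.add_sub_cancel]
        have h3 : ‖w‖ ^ n ≤ B ^ n := pow_le_pow_left₀ (norm_nonneg _) hw n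
        calc ((n + 1 : ℕ) : ℝ) * ‖w‖ ^ n * B ^ 2 ≤ ((n + 1 : ℕ) : ℝ) * B ^ n * B ^ 2 := by
              gcongr
          _ = _ := by ring
    calc ‖(w + c) * TT w c n + n * w ^ (n - 1)‖ * B ^ 2
        ≤ (B * ‖TT w c n‖ + n * ‖w‖ ^ (n - 1)) * B ^ 2 := mul_le_mul_of_nonneg_right h1 (by positivity)
      _ = B * (‖TT w c n‖ * B ^ 2) + n * ‖w‖ ^ (n - 1) * B ^ 2 := by ring
      _ ≤ B * (n ^ 2 * B ^ n) + n * B ^ (n + 1) := add_le_add (mul_le_mul_of_nonneg_left ih hB) h2
      _ = (n ^ 2 + n) * B ^ (n + 1) := by ring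
      _ ≤ _ := by
          apply mul_le_mul_of_nonneg_right _ (by positivity)
          push_cast
          nlinarith [(Nat.cast_nonneg n : (0 : ℝ) ≤ n)]

theorem GG_bound (a b : ℕ) (w d : ℂ) (B : ℝ) (hw : ‖w‖ ≤ B) (h1 : ‖w + a * d‖ ≤ B)
    (h2 : ‖w + (a + b) * d‖ ≤ B) : ‖GG a b w d‖ * B ^ 2 ≤ 2 * a ^ 2 * (a + b) ^ 2 * B ^ (a + b) := by
  have hB : 0 ≤ B := (norm_nonneg _).trans hw
  have h3 := TT_bound w (a * d) B hw h1 (a + b)
  have h4 := TT_bound w ((a + b) * d) B hw h2 a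
  have h5 : ‖w‖ ^ b ≤ B ^ b := pow_le_pow_left₀ (norm_nonneg _) hw b
  have e0 : ‖((a : ℂ) + b)‖ = (a : ℝ) + b := by
    have := Complex.norm_natCast (a + b)
    push_cast at this
    exact this
  have h6 : ‖GG a b w d‖ ≤ (a : ℝ) ^ 2 * ‖TT w (a * d) (a + b)‖ +
      ((a : ℝ) + b) ^ 2 * (‖w‖ ^ b * ‖TT w ((a + b) * d) a‖) := by
    rw [GG]
    refine (norm_sub_le _ _).trans (le_of_eq ?_)
    rw [norm_mul, norm_mul, norm_mul, norm_pow w, norm_pow, norm_pow, Complex.norm_natCast, e0]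
    ring
  calc ‖GG a b w d‖ * B ^ 2 ≤ ((a : ℝ) ^ 2 * ‖TT w (a * d) (a + b)‖ +
      ((a : ℝ) + b) ^ 2 * (‖w‖ ^ b * ‖TT w ((a + b) * d) a‖)) * B ^ 2 :=
        mul_le_mul_of_nonneg_right h6 (by positivity)
    _ = (a : ℝ) ^ 2 * (‖TT w (a * d) (a + b)‖ * B ^ 2) +
      ((a : ℝ) + b) ^ 2 * (‖w‖ ^ b * (‖TT w ((a + b) * d) a‖ * B ^ 2)) := by ring
    _ ≤ (a : ℝ) ^ 2 * (((a + b : ℕ) : ℝ) ^ 2 * B ^ (a + b)) +
      ((a : ℝ) + b) ^ 2 * (B ^ b * (a ^ 2 * B ^ a)) := by
        apply add_le_add (mul_le_mul_of_nonneg_left h3 (by positivity))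
        apply mul_le_mul_of_nonneg_left _ (by positivity)
        exact mul_le_mul h5 h4 (by positivity) (by positivity)
    _ = _ := by push_cast; ring

theorem GG_ne_zero {R : Type} [CommRing R] (D : Ar R) {a b : ℕ} (ha : 1 ≤ a) (hb : 1 ≤ b) {w d : R}
    (hwd : IsCoprime w d) (hd : ((2 * ((a + b) * a * b) : ℕ) : R) ∣ d) : GG a b w d ≠ 0 := by
  have := isDomain D
  have := charZero D
  intro h0
  have h1 := GG_mod a b w d
  rw [h0, mul_zero, zero_sub, dvd_neg] at h1
  have h2 : d ∣ (a + b) * a * b := (hwd.symm.pow_right (n := a + b)).dvd_of_dvd_mul_right h1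
  obtain ⟨s, hs⟩ := hd.trans h2
  have hm : (((a + b) * a * b : ℕ) : R) ≠ 0 := by
    have h3 : (a + b) * a * b ≠ 0 := by positivity
    exact_mod_cast h3
  have h3 : (1 : R) = 2 * s := by
    apply mul_left_cancel₀ hm
    push_cast at hs ⊢
    linear_combination hs
  refine nat_not_unit D (n := 2) le_rfl ?_
  exact IsUnit.of_mul_eq_one s (by push_cast; exact h3.symm)

/-- **First rule.** -/
theorem t : LeafMean := by
  intro R _ D a b p q L N ha hb hp hq hpa hqb hL hN h
  have := isDomain D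
  have := charZero D
  have ha1 : (1 : ℝ) ≤ a := by exact_mod_cast ha
  have hb1 : (1 : ℝ) ≤ b := by exact_mod_cast hb
  have hp0 : (0 : ℝ) < p := by exact_mod_cast hp
  have hq0 : (0 : ℝ) < q := by exact_mod_cast hq
  have hL0 : (0 : ℝ) < L := by exact_mod_cast (by omega : 0 < L)
  have epa : (p : ℝ) * a = L := by exact_mod_cast hpa
  have eqb : (q : ℝ) * b = L := by exact_mod_cast hqb
  have haC : (a : ℂ) ≠ 0 := by exact_mod_cast (by omega : a ≠ 0)
  have hbC : (b : ℂ) ≠ 0 := by exact_mod_cast (by omega : b ≠ 0)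
  have hsC : (a : ℂ) + b ≠ 0 := by exact_mod_cast (by omega : a + b ≠ 0)
  obtain ⟨C₁, hC₁, hlow⟩ := hom_lower (fun z => ((a * z.1 + b * z.2) / (a + b)) ^ (a + b))
    (fun z => z.1 ^ a * z.2 ^ b) (by fun_prop) (by fun_prop) (a + b) (by omega)
    (fun t z => by
      simp only [Prod.smul_fst, Prod.smul_snd, smul_eq_mul]
      rw [← mul_pow]
      congr 1
      ring)
    (fun t z => by simp only [Prod.smul_fst, Prod.smul_snd, smul_eq_mul]; ring)
    (by
      rintro ⟨x, y⟩ h1 h2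
      simp only at h1 h2
      have h3 : (a : ℂ) * x + b * y = 0 := by
        have := (pow_eq_zero_iff (by omega)).1 h1
        rcases div_eq_zero_iff.1 this with h4 | h4
        · exact h4
        · exact absurd h4 hsC
      rcases mul_eq_zero.1 h2 with h4 | h4
      · have hx := (pow_eq_zero_iff (by omega)).1 h4
        rw [hx, mul_zero, zero_add] at h3
        have hy := (mul_eq_zero.1 h3).resolve_left hbC
        rw [hx, hy]; rfl
      · have hy := (pow_eq_zero_iff (by omega)).1 h4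
        rw [hy, mul_zero, add_zero] at h3
        have hx := (mul_eq_zero.1 h3).resolve_left haC
        rw [hx, hy]; rfl)
  obtain ⟨K, hK⟩ : ∃ K : ℝ, K = 1 + C₁ + 2 * a ^ 2 * (a + b) ^ 2 := ⟨_, rfl⟩
  have hK1 : 1 ≤ K := by
    rw [hK]
    have : 0 ≤ 2 * (a : ℝ) ^ 2 * (a + b) ^ 2 := by positivity
    linarith
  have hKC : C₁ ≤ K := by
    rw [hK]
    have : 0 ≤ 2 * (a : ℝ) ^ 2 * (a + b) ^ 2 := by positivity
    linarith
  have hKG : 2 * (a : ℝ) ^ 2 * (a + b) ^ 2 ≤ K := by rw [hK]; linarith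
  refine transfer D (a + b) ((a : ℝ) + b - 2) K hK1 ?_ ?_ ?_ ?_ ?_ ?_ h
  · have h1 : 1 / ((a + b : ℕ) : ℝ) ≤ 1 / 2 := by
      apply one_div_le_one_div_of_le (by norm_num)
      push_cast
      linarith
    have h2 : 1 / (L : ℝ) ≤ 1 / 3 := one_div_le_one_div_of_le (by norm_num) (by exact_mod_cast hL)
    linarith
  · have hs0 : (a : ℝ) + b ≠ 0 := by linarith
    have h1 : ((a : ℝ) + b) * (1 / (L : ℝ)) = 1 / p + 1 / q := by
      have e1 : (a : ℝ) = L / p := by field_simp; linarith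
      have e2 : (b : ℝ) = L / q := by field_simp; linarith
      rw [e1, e2]
      field_simp
    have h2 : ((a : ℝ) + b) * (1 / ((a : ℝ) + b)) = 1 := by field_simp
    push_cast
    refine le_of_eq ?_
    linear_combination h2 + h1
  · intro s _ i
    exact (pow_nonneg (norm_nonneg _) _).trans (le_max_left _ _)
  · rintro ⟨x, y⟩ ⟨hxy, hne, -⟩
    simp only at hxy hne ⊢
    by_cases hx0 : x = 0
    · have hy : IsUnit y := by
        rw [hx0] at hxy
        exact isCoprime_zero_left.1 hxy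
      refine le_norm_prod D (x := y ^ q) (pow_ne_zero _ hy.ne_zero) fun i => ?_
      rw [map_pow, norm_pow]
      exact le_max_right _ _
    · refine le_norm_prod D (x := x ^ p) (pow_ne_zero _ hx0) fun i => ?_
      rw [map_pow, norm_pow]
      exact le_max_left _ _
  · rintro ⟨x, y⟩ ⟨-, hne, -⟩
    exact sub_ne_zero.2 hne
  rintro ⟨x, y⟩ ⟨hxy, hne, hdvd⟩
  simp only at hxy hne hdvd
  right
  obtain ⟨w, hw⟩ : ∃ w : R, w = y ^ q := ⟨_, rfl⟩
  obtain ⟨d₁, hd₁⟩ := hdvd
  obtain ⟨d, hd⟩ : ∃ d : R, d = N * (2 * (((a : R) + b) * a * b)) * d₁ := ⟨_, rfl⟩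
  have hF : x ^ p - y ^ q = (a + b) * d := by rw [hd₁, hd]; push_cast; ring
  have hu : x ^ p = w + (a + b) * d := by rw [hw]; linear_combination hF
  have hF0 : x ^ p - y ^ q ≠ 0 := sub_ne_zero.2 hne
  have hd0 : d ≠ 0 := by
    intro h0
    rw [h0, mul_zero] at hF
    exact hF0 hF
  have hd2 : ((2 * ((a + b) * a * b) : ℕ) : R) ∣ d := ⟨N * d₁, by rw [hd]; push_cast; ring⟩
  have had : (a : R) ∣ d := dvd_trans ⟨2 * ((a + b) * b), by push_cast; ring⟩ hd2
  have hbd : (b : R) ∣ d := dvd_trans ⟨2 * ((a + b) * a), by push_cast; ring⟩ hd2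
  have wd : IsCoprime w d := by
    apply isCoprime_of_max
    intro P hPm h1 h2
    have h3 : x ^ p ∈ P := by
      rw [hu]
      exact P.add_mem h1 (P.mul_mem_left _ h2)
    rw [hw] at h1
    exact not_both hxy hPm (hPm.isPrime.mem_of_pow_mem _ h3) (hPm.isPrime.mem_of_pow_mem _ h1)
  obtain ⟨G, hG⟩ : ∃ G : R, G = GG a b w d := ⟨_, rfl⟩
  have hG0 : G ≠ 0 := by rw [hG]; exact GG_ne_zero D ha hb wd hd2
  have hmain : (w + a * d) ^ (a + b) - (x * y) ^ L = d ^ 2 * G := by
    have h1 := GG_spec a b ha w d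
    have h2 : (x * y) ^ L = (w + (a + b) * d) ^ a * w ^ b := by
      rw [← hu, hw, ← pow_mul, ← pow_mul, hpa, hqb, mul_pow]
    rw [h2, hG]
    exact h1
  have hcop : IsCoprime (w + a * d) (x * y) := by
    apply isCoprime_of_max
    intro P hPm h1 h2
    rcases hPm.isPrime.mem_or_mem h2 with h3 | h3
    · have h4 : x ^ p ∈ P := P.pow_mem_of_mem h3 p (by omega)
      have h5 : (b : R) * d ∈ P := by
        have e : (b : R) * d = x ^ p - (w + a * d) := by rw [hu]; ring
        rw [e]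
        exact P.sub_mem h4 h1
      have h6 : d ∈ P := by
        rcases hPm.isPrime.mem_or_mem h5 with h6 | h6
        · exact mem_of_dvd hbd h6
        · exact h6
      have h7 : w ∈ P := by
        have e : w = (w + a * d) - a * d := by ring
        rw [e]
        exact P.sub_mem h1 (P.mul_mem_left _ h6)
      exact not_both wd hPm h7 h6
    · have h4 : w ∈ P := by rw [hw]; exact P.pow_mem_of_mem h3 q (by omega)
      have h5 : (a : R) * d ∈ P := by
        have e : (a : R) * d = (w + a * d) - w := by ring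
        rw [e]
        exact P.sub_mem h1 h4
      have h6 : d ∈ P := by
        rcases hPm.isPrime.mem_or_mem h5 with h6 | h6
        · exact mem_of_dvd had h6
        · exact h6
      exact not_both wd hPm h4 h6
  refine ⟨(w + a * d, x * y), ⟨hcop, ?_, ?_⟩, ?_, G, hG0, mul_ne_zero hF0 hG0, ?_, 2, ?_⟩
  · simp only
    intro h1
    rw [h1, sub_self] at hmain
    exact mul_ne_zero (pow_ne_zero 2 hd0) hG0 hmain.symm
  · simp only
    rw [hmain]
    exact ⟨2 * (((a : R) + b) * a * b) * d₁ * d * G, by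
      rw [sq]
      nth_rewrite 1 [hd]
      ring⟩
  · intro i
    simp only
    have h1 := hlow (D.σ i (x ^ p), D.σ i w)
    have e1 : (a * D.σ i (x ^ p) + b * D.σ i w) / (a + b) = D.σ i (w + a * d) := by
      rw [hu]
      simp only [map_add, map_mul, map_natCast]
      field_simp
      ring
    have e2 : D.σ i (x ^ p) ^ a * D.σ i w ^ b = D.σ i (x * y) ^ L := by
      rw [hw]
      simp only [map_pow, map_mul]
      rw [← pow_mul, ← pow_mul, hpa, hqb, mul_pow]
    simp only [e1, e2, Prod.norm_def] at h1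
    rw [hw] at h1
    rw [map_pow, map_pow, norm_pow, norm_pow] at h1
    rw [norm_pow, norm_pow] at h1
    rw [hw]
    refine h1.trans (mul_le_mul_of_nonneg_right hKC ?_)
    exact (pow_nonneg (norm_nonneg _) _).trans (le_max_left _ _)
  · intro i
    simp only
    obtain ⟨M, hM⟩ : ∃ M : ℝ, M = max (‖D.σ i x‖ ^ p) (‖D.σ i y‖ ^ q) := ⟨_, rfl⟩
    rw [← hM]
    have hM0 : 0 < M := by
      by_cases hx0 : x = 0
      · have hy : IsUnit y := by
          rw [hx0] at hxy
          exact isCoprime_zero_left.1 hxy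
        rw [hM]
        exact lt_max_of_lt_right (pow_pos (norm_pos_iff.2 (sigma_ne_zero D hy.ne_zero i)) _)
      · rw [hM]
        exact lt_max_of_lt_left (pow_pos (norm_pos_iff.2 (sigma_ne_zero D hx0 i)) _)
    have hwM : ‖D.σ i w‖ ≤ M := by
      rw [hw, hM, map_pow, norm_pow]; exact le_max_right _ _
    have huM : ‖D.σ i w + (a + b) * D.σ i d‖ ≤ M := by
      have e : D.σ i w + (a + b) * D.σ i d = D.σ i (x ^ p) := by
        rw [hu]
        simp only [map_add, map_mul, map_natCast]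
      rw [e, hM, map_pow, norm_pow]; exact le_max_left _ _
    have hs0 : (0 : ℝ) < (a : ℝ) + b := by linarith
    have hsn : ‖(a : ℂ) + b‖ = (a : ℝ) + b := by
      have := Complex.norm_natCast (a + b)
      push_cast at this
      exact this
    have hXM : ‖D.σ i w + a * D.σ i d‖ ≤ M := by
      have e : D.σ i w + a * D.σ i d = (b / (a + b)) * D.σ i w +
          (a / (a + b)) * (D.σ i w + (a + b) * D.σ i d) := by
        field_simp; ring
      rw [e]
      calc _ ≤ ‖(b / (a + b) : ℂ) * D.σ i w‖ +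
            ‖(a / (a + b) : ℂ) * (D.σ i w + (a + b) * D.σ i d)‖ := norm_add_le _ _
        _ = b / (a + b) * ‖D.σ i w‖ + a / (a + b) * ‖D.σ i w + (a + b) * D.σ i d‖ := by
            rw [norm_mul, norm_mul, norm_div, norm_div, hsn, Complex.norm_natCast,
              Complex.norm_natCast]
        _ ≤ b / (a + b) * M + a / (a + b) * M := by gcongr
        _ = M := by field_simp; ring
    have h1 := GG_bound a b (D.σ i w) (D.σ i d) M hwM hXM huM
    rw [← map_GG, ← hG] at h1
    have h2 : M ^ ((a : ℝ) + b - 2) * M ^ 2 = M ^ (a + b) := by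
      rw [← Real.rpow_natCast M 2, ← Real.rpow_add hM0, ← Real.rpow_natCast M (a + b)]
      congr 1
      push_cast
      ring
    have h3 : ‖D.σ i G‖ * M ^ 2 ≤ (K * M ^ ((a : ℝ) + b - 2)) * M ^ 2 := by
      rw [mul_assoc, h2]
      exact h1.trans (mul_le_mul_of_nonneg_right hKG (by positivity))
    exact le_of_mul_le_mul_right h3 (by positivity)
  · simp only
    rw [hmain, hF]
    exact ⟨(a + b) ^ 2 * G, by ring⟩

end Pool.Agent.N163.GA
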